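import Mathlib
import Pool.Agent.W824.BJ.Final

/-!
# The generic rank in `ℝ³` of the line graph of a multigraph

Rigid bodies in `ℝ³` are joined pairwise at generic points (joints), each joint being shared by
exactly two bodies. The graph on the joints, in which two joints are adjacent when they lie on a
common body, is the line graph of the multigraph with the bodies as vertices and the joints as
edges. We give the rank of this graph in the generic three-dimensional rigidity matroid as a minimum
over the partitions of the set of bodies.
-/

set_option autoImplicit false

namespace Pool.Agent.Results.MP_37c7bf_co.LineGraphRank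

open Finset Pool.Agent.W824.BJ Pool.Agent.H789R5 Pool.Agent.H283R2.DR

variable {V B : Type} [Fintype V]

open Classical in
/-- the number of joints which touch the class `A` of bodies -/
noncomputable def touching (r : Setoid B) (s t : V → B) (A : Quotient r) : ℕ :=
  (univ.filter fun v : V => Quotient.mk r (s v) = A ∨ Quotient.mk r (t v) = A).card

open Classical in
/-- the number of joints between the classes `A` and `A'` of bodies -/
noncomputable def between (r : Setoid B) (s t : V → B) (A A' : Quotient r) : ℕ :=
  (univ.filter fun v : V => (Quotient.mk r (s v) = A ∧ Quotient.mk r (t v) = A') ∨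
    (Quotient.mk r (s v) = A' ∧ Quotient.mk r (t v) = A)).card

/-- the rank of the complete graph with `n` vertices: `0`, `0`, `1` for `n = 0, 1, 2`, and
`3 n - 6` for `n ≥ 3` -/
def rk (n : ℕ) : ℕ := if n ≤ 1 then 0 else if n = 2 then 1 else 3 * n - 6

open Classical in
/-- the sum over the classes of bodies of the rank of the complete graph on the joints which touch
the class -/
noncomputable def touchSum [Fintype B] (r : Setoid B) (s t : V → B) : ℕ :=
  ∑ A : Quotient r, rk (touching r s t A)

open Classical in
/-- the sum over the ordered pairs of distinct classes of bodies of the rank of the complete graph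
on the joints between the two classes (twice the sum over the unordered pairs) -/
noncomputable def betweenSum [Fintype B] (r : Setoid B) (s t : V → B) : ℕ :=
  ∑ q ∈ (univ : Finset (Quotient r)).offDiag, rk (between r s t q.1 q.2)

theorem touchSum_eq [Fintype B] (r : Setoid B) (s t : V → B)
    [inst : Fintype (Quotient r)] : touchSum r s t = R1 (qs r s) (qs r t) := by
  classical
  unfold touchSum R1
  have h : ∀ A, rk (touching r s t A) = rho (jt (qs r s) (qs r t) A).card := by
    intro A
    change rho (touching r s t A) = _
    congr 1
    unfold touching
    congr 1
    ext v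
    rw [mem_jt, Finset.mem_filter]
    exact ⟨fun h => h.2, fun h => ⟨Finset.mem_univ _, h⟩⟩
  simp only [h]
  apply Finset.sum_congr
  · ext A
    simp
  · intro _ _
    rfl

theorem betweenSum_eq [Fintype B] (r : Setoid B) (s t : V → B)
    [inst : Fintype (Quotient r)] [inst' : DecidableEq (Quotient r)] :
    betweenSum r s t = R2 (qs r s) (qs r t) := by
  classical
  unfold betweenSum R2
  have h : ∀ A A', rk (between r s t A A') = rho (cnt (qs r s) (qs r t) univ A A') := by
    intro A A'
    change rho (between r s t A A') = _
    congr 1
    unfold between cnt
    congr 1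
    ext v
    simp only [Finset.mem_filter]
    exact Iff.rfl
  simp only [h]
  apply Finset.sum_congr
  · ext q
    simp
  · intro _ _
    rfl

/-- **The generic rank in `ℝ³` of the line graph of a multigraph.** Let `B` be a finite set of
bodies and `V` a finite set of joints, each of which joins two different bodies `s v` and `t v`. Let
`G` be the graph on the joints in which two different joints are adjacent when they have a body in
common. Then the rank of `G` in the generic rigidity matroid of `ℝ³` is the minimum over all
partitions of the set of bodies (equivalence relations `r`) of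
`∑_A rk (number of joints which touch A) - ∑_{A, A'} rk (number of joints between A and A')`, where
`A` runs over the classes and `{A, A'}` over the unordered pairs of different classes. Hence, for at
least three joints, `G` is generically rigid in `ℝ³` if and only if this number is at least
`3 |V| - 6` for all partitions. -/
theorem result [Fintype B] (s t : V → B) (hst : ∀ v, s v ≠ t v) (G : SimpleGraph V)
    (hG : ∀ v w, G.Adj v w ↔ v ≠ w ∧ (s v = s w ∨ s v = t w ∨ t v = s w ∨ t v = t w)) :
    IsLeast {m : ℕ | ∃ r : Setoid B, 2 * m + betweenSum r s t = 2 * touchSum r s t}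
      (genRank 3 G) ∧
    (3 ≤ Fintype.card V → (GenRigid 3 G ↔
      ∀ r : Setoid B, 6 * Fintype.card V + betweenSum r s t ≤ 2 * touchSum r s t + 12)) := by
  classical
  have hG1 : ∀ v w, v ≠ w → (s v = s w ∨ s v = t w ∨ t v = s w ∨ t v = t w) → G.Adj v w :=
    fun v w h1 h2 => (hG v w).2 ⟨h1, h2⟩
  have hG2 : ∀ v w, G.Adj v w → s v = s w ∨ s v = t w ∨ t v = s w ∨ t v = t w :=
    fun v w h => ((hG v w).1 h).2
  obtain ⟨p, hp⟩ := exists_mg V 3
  have hle : ∀ r : Setoid B, 2 * genRank 3 G + betweenSum r s t ≤ 2 * touchSum r s t := by
    intro r
    rw [touchSum_eq, betweenSum_eq]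
    apply rank_le hp
    intro v w hvw
    rcases hG2 v w hvw with h | h | h | h
    · exact Or.inl (congrArg (Quotient.mk r) h)
    · exact Or.inr (Or.inl (congrArg (Quotient.mk r) h))
    · exact Or.inr (Or.inr (Or.inl (congrArg (Quotient.mk r) h)))
    · exact Or.inr (Or.inr (Or.inr (congrArg (Quotient.mk r) h)))
  have heq : ∃ r : Setoid B, 2 * genRank 3 G + betweenSum r s t = 2 * touchSum r s t := by
    refine ⟨rigRel s t univ, ?_⟩
    rw [touchSum_eq, betweenSum_eq]
    exact rank_eq s t hst G hG1 hG2
  refine ⟨⟨heq, ?_⟩, ?_⟩
  · rintro m ⟨r, hr⟩
    have := hle r
    omega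
  · intro hV
    rw [genRigid_iff hp hV]
    have h2 := genRank_add hp G
    constructor
    · intro h r
      have := hle r
      omega
    · intro h
      obtain ⟨r, hr⟩ := heq
      have := h r
      omega

end Pool.Agent.Results.MP_37c7bf_co.LineGraphRank
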